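import Pool.Agent.Helper75.KS.GoalsB

/-!
# The Kahn-Saks conjecture: TRF (transfer to types)
-/

namespace Pool.Agent.Helper22.KS

open Finset Pool.Agent.Helper75.KS
open Pool.Agent.Helper89.GP (LX mem_LX)

theorem trf_key {α : Type} [PartialOrder α] {N : ℕ} (e : α ≃ Fin N)
    (R : Fin N → Fin N → Prop) (hR : ∀ a b, R (e a) (e b) ↔ a < b)
    (Q : Equiv.Perm (Fin N) → Prop) [DecidablePred Q] :
    {f : α ≃ Fin N | StrictMono (f : α → Fin N) ∧ Q (e.symm.trans f)}.ncard =
      ((LX R).filter Q).card := by
  have hinj : Function.Injective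
      (fun f : α ≃ Fin N => (e.symm.trans f : Equiv.Perm (Fin N))) := by
    intro f g hfg
    ext a
    have h1 := congrArg (fun σ : Equiv.Perm (Fin N) => σ (e a)) hfg
    simp only [Equiv.trans_apply, Equiv.symm_apply_apply] at h1
    rw [h1]
  rw [← Set.ncard_image_of_injective _ hinj, ← Set.ncard_coe_finset]
  congr 1
  ext σ
  simp only [Set.mem_image, Set.mem_ofPred_eq, coe_filter, mem_LX]
  constructor
  · rintro ⟨f, ⟨hf, hQ⟩, rfl⟩
    refine ⟨fun p q hpq => ?_, hQ⟩
    obtain ⟨a, rfl⟩ := e.surjective p
    obtain ⟨b, rfl⟩ := e.surjective q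
    simp only [Equiv.trans_apply, Equiv.symm_apply_apply]
    exact hf ((hR a b).1 hpq)
  · rintro ⟨h1, h2⟩
    refine ⟨e.trans σ, ⟨fun a b hab => h1 _ _ ((hR a b).2 hab), ?_⟩, ?_⟩
    · have h3 : e.symm.trans (e.trans σ) = σ := by
        ext p
        simp
      rw [h3]
      exact h2
    · ext p
      simp

/-- TRF -/
theorem trf : TrfStmt := by
  intro α _ _
  refine ⟨Fintype.equivFin α, fun p q => (Fintype.equivFin α).symm p < (Fintype.equivFin α).symm q,
    ⟨fun a b c h1 h2 => lt_trans h1 h2, fun a h => lt_irrefl _ h⟩, ?_, ?_, ?_, ?_⟩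
  · intro a b
    simp only [Equiv.symm_apply_apply]
  · have h := trf_key (Fintype.equivFin α)
      (fun p q => (Fintype.equivFin α).symm p < (Fintype.equivFin α).symm q)
      (fun a b => by simp only [Equiv.symm_apply_apply]) (fun _ => True)
    simpa using h
  · intro u v
    have h := trf_key (Fintype.equivFin α)
      (fun p q => (Fintype.equivFin α).symm p < (Fintype.equivFin α).symm q)
      (fun a b => by simp only [Equiv.symm_apply_apply])
      (fun σ => σ (Fintype.equivFin α u) < σ (Fintype.equivFin α v))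
    simpa using h
  · intro u v w z
    have h := trf_key (Fintype.equivFin α)
      (fun p q => (Fintype.equivFin α).symm p < (Fintype.equivFin α).symm q)
      (fun a b => by simp only [Equiv.symm_apply_apply])
      (fun σ => σ (Fintype.equivFin α u) < σ (Fintype.equivFin α v) ∧
        σ (Fintype.equivFin α w) < σ (Fintype.equivFin α z))
    simpa using h

end Pool.Agent.Helper22.KS
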