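import Pool.Agent.Helper44.KS.GoalsD

/-!
# The Kahn-Saks conjecture: JLD (finite differences are derivatives)
-/

namespace Pool.Agent.Helper22.KS

open MeasureTheory Filter Topology Set Pool.Agent.Helper44.KS
open scoped ContDiff

/-- Pascal's rule for finite differences. -/
theorem pascal (g : ℝ → ℝ) (L : ℝ) (j : ℕ) (y : ℝ) :
    ∑ i ∈ Finset.range (j + 1 + 1), (-1 : ℝ) ^ i * ((j + 1).choose i : ℝ) * g (y - i * L) =
      ∑ i ∈ Finset.range (j + 1), (-1 : ℝ) ^ i * (j.choose i : ℝ) * g (y - i * L) -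
      ∑ i ∈ Finset.range (j + 1), (-1 : ℝ) ^ i * (j.choose i : ℝ) * g (y - L - i * L) := by
  rw [Finset.sum_range_succ']
  have h1 : ∀ i ∈ Finset.range (j + 1),
      (-1 : ℝ) ^ (i + 1) * ((j + 1).choose (i + 1) : ℝ) * g (y - ((i + 1 : ℕ) : ℝ) * L) =
      (-1 : ℝ) ^ (i + 1) * (j.choose (i + 1) : ℝ) * g (y - ((i + 1 : ℕ) : ℝ) * L) -
      (-1 : ℝ) ^ i * (j.choose i : ℝ) * g (y - L - i * L) := by
    intro i _
    have h2 : y - ((i + 1 : ℕ) : ℝ) * L = y - L - i * L := by push_cast; ring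
    rw [h2, Nat.choose_succ_succ]
    push_cast
    ring
  rw [Finset.sum_congr rfl h1, Finset.sum_sub_distrib]
  have h3 : ∑ i ∈ Finset.range (j + 1),
      (-1 : ℝ) ^ (i + 1) * (j.choose (i + 1) : ℝ) * g (y - ((i + 1 : ℕ) : ℝ) * L) +
      (-1 : ℝ) ^ 0 * (j.choose 0 : ℝ) * g (y - ((0 : ℕ) : ℝ) * L) =
      ∑ i ∈ Finset.range (j + 1), (-1 : ℝ) ^ i * (j.choose i : ℝ) * g (y - i * L) := by
    rw [← Finset.sum_range_succ' (fun i => (-1 : ℝ) ^ i * (j.choose i : ℝ) * g (y - (i : ℝ) * L)),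
      Finset.sum_range_succ]
    simp
  rw [← h3]
  simp only [Nat.choose_zero_right]
  ring

/-- The averaging step. -/
theorem step (G₀ : ℝ → ℝ) (hG : ContDiff ℝ ∞ G₀) (hc : HasCompactSupport G₀) (L : ℝ) :
    ∃ G : ℝ → ℝ, ContDiff ℝ ∞ G ∧ HasCompactSupport G ∧ ∀ y, deriv G y = G₀ y - G₀ (y - L) := by
  have hcont : Continuous G₀ := hG.continuous
  set H : ℝ → ℝ := fun y => ∫ u in (0 : ℝ)..y, G₀ u with hH
  have hH1 : ∀ y, HasDerivAt H (G₀ y) y := fun y =>
    intervalIntegral.integral_hasDerivAt_right (hcont.intervalIntegrable _ _)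
      (hcont.stronglyMeasurableAtFilter _ _) hcont.continuousAt
  have hH2 : deriv H = G₀ := funext fun y => (hH1 y).deriv
  have hH3 : ContDiff ℝ ∞ H := by
    rw [contDiff_infty_iff_deriv, hH2]
    exact ⟨fun y => (hH1 y).differentiableAt, hG⟩
  refine ⟨fun y => H y - H (y - L), hH3.sub (hH3.comp (contDiff_id.sub contDiff_const)), ?_, ?_⟩
  · obtain ⟨R, hR⟩ := hc.isCompact.isBounded.subset_closedBall (0 : ℝ)
    have hzero : ∀ u : ℝ, R < |u| → G₀ u = 0 := by
      intro u hu
      by_contra hne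
      have h1 : u ∈ tsupport G₀ := subset_tsupport _ hne
      have h2 := hR h1
      rw [Metric.mem_closedBall, dist_zero_right, Real.norm_eq_abs] at h2
      linarith
    refine HasCompactSupport.of_support_subset_isCompact
      (isCompact_closedBall (0 : ℝ) (|R| + |L|)) ?_
    intro y hy
    rw [Metric.mem_closedBall, dist_zero_right, Real.norm_eq_abs]
    by_contra hlt
    push Not at hlt
    apply hy
    have h1 : H y - H (y - L) = ∫ u in (y - L)..y, G₀ u := by
      rw [hH]
      exact intervalIntegral.integral_interval_sub_left (hcont.intervalIntegrable _ _)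
        (hcont.intervalIntegrable _ _)
    show H y - H (y - L) = 0
    rw [h1]
    apply intervalIntegral.integral_zero_ae
    refine Filter.Eventually.of_forall fun u hu => hzero u ?_
    have hRR := le_abs_self R
    rw [Set.mem_uIoc] at hu
    rcases abs_cases y with hy' | hy' <;> rcases abs_cases L with hL | hL <;>
      rcases abs_cases u with hu' | hu' <;> rcases hu with hu | hu <;> linarith
  · intro y
    have h1 : HasDerivAt (fun y => H (y - L)) (G₀ (y - L)) y := by
      have := (hH1 (y - L)).comp_sub_const y L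
      exact this
    exact ((hH1 y).sub h1).deriv

/-- JLD -/
theorem jld : S_JLD := by
  intro g hg hgc L j
  induction j with
  | zero =>
    refine ⟨g, hg, hgc, fun y => ?_⟩
    simp
  | succ j ih =>
    obtain ⟨G₀, h1, h2, h3⟩ := ih
    obtain ⟨G, h4, h5, h6⟩ := step G₀ h1 h2 L
    refine ⟨G, h4, h5, fun y => ?_⟩
    have h7 : deriv G = fun y => G₀ y - G₀ (y - L) := funext h6
    have hj : ((j : ℕ) : WithTop ℕ∞) ≤ ∞ := by exact_mod_cast le_top
    rw [iteratedDeriv_succ', h7]
    have h8 : ContDiffAt ℝ j G₀ y := (h1.of_le hj).contDiffAt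
    have h9 : ContDiffAt ℝ j (fun y => G₀ (y - L)) y :=
      ((h1.of_le hj).comp (contDiff_id.sub contDiff_const)).contDiffAt
    have h10 : iteratedDeriv j (fun y => G₀ y - G₀ (y - L)) y =
        iteratedDeriv j G₀ y - iteratedDeriv j (fun y => G₀ (y - L)) y :=
      iteratedDeriv_sub h8 h9
    have h11 : iteratedDeriv j (fun y => G₀ (y - L)) y = iteratedDeriv j G₀ (y - L) := by
      rw [iteratedDeriv_comp_sub_const]
    rw [h10, pascal, h3 y, h11, h3 (y - L)]

end Pool.Agent.Helper22.KS
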