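import Pool.Agent.Helper89.KS.Goals
import Pool.Agent.Helper33.GP.SMO

/-!
# The Kahn-Saks conjecture: LCM (log-concavity of the exponential model)
-/

namespace Pool.Agent.Helper22.KS

open Finset MeasureTheory Pool.Agent.Helper89.GP Pool.Agent.Helper89.KS Filter
open Pool.Agent.Helper33.GP (bx wt wt_meas bx_meas wt_nonneg wt_pos)
open scoped ENNReal

noncomputable section

variable {n : ℕ}

theorem cn_meas (R : Fin n → Fin n → Prop) : MeasurableSet (Cn R) := by
  have h1 : MeasurableSet {x : Fin n → ℝ | ∀ a, 0 < x a} := by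
    rw [Set.ofPred_forall]
    exact MeasurableSet.iInter fun a => measurableSet_lt measurable_const (measurable_pi_apply a)
  have h2 : MeasurableSet {x : Fin n → ℝ | ∀ a b, R a b → x a < x b} := by
    rw [Set.ofPred_forall]
    refine MeasurableSet.iInter fun a => ?_
    rw [Set.ofPred_forall]
    refine MeasurableSet.iInter fun b => ?_
    by_cases hR : R a b
    · have h3 : {x : Fin n → ℝ | R a b → x a < x b} = {x | x a < x b} := by
        ext x; simp [hR]
      rw [h3]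
      exact measurableSet_lt (measurable_pi_apply a) (measurable_pi_apply b)
    · have h3 : {x : Fin n → ℝ | R a b → x a < x b} = Set.univ := by
        ext x; simp [hR]
      rw [h3]
      exact MeasurableSet.univ
  exact h1.inter h2

theorem wt_le {x : Fin n → ℝ} (h : ∀ a, 0 < x a) : wt x ≤ 1 := by
  unfold wt
  rw [Real.exp_le_one_iff]
  have h1 : 0 ≤ ⨆ a, x a := Real.iSup_nonneg fun a => (h a).le
  linarith

theorem wt_cb (x y : Fin n → ℝ) {l : ℝ} (h0 : 0 < l) (h1 : l < 1) :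
    wt x ^ (1 - l) * wt y ^ l ≤ wt (fun i => (1 - l) * x i + l * y i) := by
  rcases isEmpty_or_nonempty (Fin n) with h | ⟨⟨u⟩⟩
  · have h2 : ∀ z : Fin n → ℝ, wt z = 1 := fun z => by
      unfold wt
      rw [Real.iSup_of_isEmpty, neg_zero, Real.exp_zero]
    rw [h2, h2, h2, Real.one_rpow, Real.one_rpow, mul_one]
  · exact Pool.Agent.Helper33.GP.wt_combo u x y h0 h1

/-- The truncated weight. -/
def fA (R : Fin n → Fin n → Prop) (A : Set (Fin n → ℝ)) (T : ℝ) : (Fin n → ℝ) → ℝ :=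
  (Cn R ∩ A ∩ bx n T).indicator wt

theorem fA_meas (R : Fin n → Fin n → Prop) {A : Set (Fin n → ℝ)} (hA : MeasurableSet A) (T : ℝ) :
    Measurable (fA R A T) :=
  wt_meas.indicator (((cn_meas R).inter hA).inter (bx_meas T))

theorem fA_bd (R : Fin n → Fin n → Prop) (A : Set (Fin n → ℝ)) (T : ℝ) (x : Fin n → ℝ) :
    0 ≤ fA R A T x ∧ fA R A T x ≤ 1 := by
  unfold fA
  by_cases h : x ∈ Cn R ∩ A ∩ bx n T
  · rw [Set.indicator_of_mem h]
    exact ⟨wt_nonneg x, wt_le h.1.1.1⟩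
  · rw [Set.indicator_of_notMem h]
    exact ⟨le_refl 0, zero_le_one⟩

theorem fA_supp (R : Fin n → Fin n → Prop) (A : Set (Fin n → ℝ)) (T : ℝ) (x : Fin n → ℝ)
    (h : ∃ i, T < |x i|) : fA R A T x = 0 := by
  unfold fA
  apply Set.indicator_of_notMem
  rintro ⟨h1, h2⟩
  obtain ⟨i, hi⟩ := h
  have h3 : 0 < x i := h1.1.1 i
  have h4 : x i < T := h2 i
  rw [abs_of_pos h3] at hi
  linarith

theorem fA_combo (R : Fin n → Fin n → Prop) (A B C : Set (Fin n → ℝ)) (T : ℝ) {l : ℝ}
    (h0 : 0 < l) (h1 : l < 1) (hABC : ∀ u ∈ A, ∀ v ∈ B, (1 - l) • u + l • v ∈ C)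
    (x y : Fin n → ℝ) :
    fA R A T x ^ (1 - l) * fA R B T y ^ l ≤ fA R C T (fun i => (1 - l) * x i + l * y i) := by
  have hl : 0 < 1 - l := sub_pos.2 h1
  by_cases hx : x ∈ Cn R ∩ A ∩ bx n T
  · by_cases hy : y ∈ Cn R ∩ B ∩ bx n T
    · have hz : (fun i => (1 - l) * x i + l * y i) ∈ Cn R ∩ C ∩ bx n T := by
        obtain ⟨⟨⟨x1, x2⟩, x3⟩, x5⟩ := hx
        obtain ⟨⟨⟨y1, y2⟩, y3⟩, y5⟩ := hy
        refine ⟨⟨⟨?_, ?_⟩, ?_⟩, ?_⟩
        · intro a
          have := mul_pos hl (x1 a)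
          have := mul_pos h0 (y1 a)
          show 0 < (1 - l) * x a + l * y a
          linarith
        · intro a b hab
          have := mul_lt_mul_of_pos_left (x2 a b hab) hl
          have := mul_lt_mul_of_pos_left (y2 a b hab) h0
          show (1 - l) * x a + l * y a < (1 - l) * x b + l * y b
          linarith
        · exact hABC x x3 y y3
        · intro a
          have h3 := mul_lt_mul_of_pos_left (x5 a) hl
          have h4 := mul_lt_mul_of_pos_left (y5 a) h0
          show (1 - l) * x a + l * y a < T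
          nlinarith
      unfold fA
      rw [Set.indicator_of_mem hx, Set.indicator_of_mem hy, Set.indicator_of_mem hz]
      exact wt_cb x y h0 h1
    · have h2 : fA R B T y = 0 := Set.indicator_of_notMem hy _
      rw [h2, Real.zero_rpow h0.ne', mul_zero]
      exact (fA_bd _ _ _ _).1
  · have h2 : fA R A T x = 0 := Set.indicator_of_notMem hx _
    rw [h2, Real.zero_rpow hl.ne', zero_mul]
    exact (fA_bd _ _ _ _).1

theorem fA_pl (R : Fin n → Fin n → Prop) {A B C : Set (Fin n → ℝ)} (hA : MeasurableSet A)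
    (hB : MeasurableSet B) (hC : MeasurableSet C) (T : ℝ) {l : ℝ}
    (h0 : 0 < l) (h1 : l < 1) (hABC : ∀ u ∈ A, ∀ v ∈ B, (1 - l) • u + l • v ∈ C) :
    (∫ x, fA R A T x) ^ (1 - l) * (∫ x, fA R B T x) ^ l ≤ ∫ x, fA R C T x :=
  Pool.Agent.Helper9.FR.pl_all n _ _ _ l T 1 h0 h1 (fA_meas R hA T) (fA_meas R hB T)
    (fA_meas R hC T) (fA_bd R A T) (fA_bd R B T) (fA_bd R C T)
    (fun x hx => ⟨fA_supp R A T x hx, fA_supp R B T x hx, fA_supp R C T x hx⟩)
    (fA_combo R A B C T h0 h1 hABC)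

theorem fA_int (R : Fin n → Fin n → Prop) {A : Set (Fin n → ℝ)} (hA : MeasurableSet A) (T : ℝ) :
    ∫ x, fA R A T x = ∫ x in Cn R ∩ A ∩ bx n T, wt x := by
  unfold fA
  exact integral_indicator (((cn_meas R).inter hA).inter (bx_meas T))

theorem fA_tendsto (R : Fin n → Fin n → Prop) {A : Set (Fin n → ℝ)} (hA : MeasurableSet A)
    (hint : IntegrableOn (wt : (Fin n → ℝ) → ℝ) (Cn R)) :
    Tendsto (fun T : ℕ => ∫ x, fA R A T x) atTop (nhds (∫ x in Cn R ∩ A, wt x)) := by
  have h1 : Cn R ∩ A = ⋃ T : ℕ, Cn R ∩ A ∩ bx n T := by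
    rw [← Set.inter_iUnion]
    have h2 : (⋃ T : ℕ, bx n (T : ℝ)) = Set.univ := by
      rw [Set.eq_univ_iff_forall]
      intro x
      obtain ⟨T, hT⟩ := exists_nat_gt (⨆ a, x a)
      rw [Set.mem_iUnion]
      refine ⟨T, fun a => ?_⟩
      exact lt_of_le_of_lt (le_ciSup (Set.finite_range x).bddAbove a) hT
    rw [h2, Set.inter_univ]
  have h3 : (fun T : ℕ => ∫ x, fA R A T x) =
      fun T : ℕ => ∫ x in Cn R ∩ A ∩ bx n T, wt x := by
    funext T
    exact fA_int R hA T
  rw [h3]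
  have h4 := tendsto_setIntegral_of_monotone (μ := volume) (f := (wt : (Fin n → ℝ) → ℝ))
    (s := fun T : ℕ => Cn R ∩ A ∩ bx n T)
    (fun T => ((cn_meas R).inter hA).inter (bx_meas _)) (by
      intro T T' hT x hx
      refine ⟨hx.1, fun a => lt_of_lt_of_le (hx.2 a) ?_⟩
      exact_mod_cast hT) (by
      rw [← h1]
      exact hint.mono_set Set.inter_subset_left)
  rw [← h1] at h4
  exact h4

theorem ex1_finite : IsFiniteMeasure ex1 := by
  unfold ex1
  exact isFiniteMeasure_withDensity_ofReal (integrableOn_exp_neg_Ioi 0).2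

theorem mu_univ_lt (R : Fin n → Fin n → Prop) (h : (LX R).Nonempty) : mu R Set.univ < ∞ := by
  have := ex1_finite
  have h1 : IsFiniteMeasure (En n) := by unfold En; infer_instance
  unfold mu
  rw [Measure.smul_apply, smul_eq_mul]
  apply ENNReal.mul_lt_top
  · rw [ENNReal.inv_lt_top]
    exact_mod_cast h.card_pos
  · rw [Measure.finsetSum_apply]
    exact ENNReal.sum_lt_top.2 fun σ _ => measure_lt_top _ _

/-- LCM -/
theorem lcm (hlw : LwbStmt) : LcmStmt := by
  intro n R h A B C t hA hB hC _ _ h0 h1 hABC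
  have hl : 0 < 1 - t := sub_pos.2 h1
  have hcard : (0 : ℝ) < (LX R).card := by exact_mod_cast h.card_pos
  have hcE : ((LX R).card : ℝ≥0∞)⁻¹ ≠ 0 := ENNReal.inv_ne_zero.2 (ENNReal.natCast_ne_top _)
  -- the weight is integrable on the cone
  have hint : IntegrableOn (wt : (Fin n → ℝ) → ℝ) (Cn R) := by
    refine ⟨wt_meas.aestronglyMeasurable, ?_⟩
    rw [hasFiniteIntegral_iff_ofReal (Eventually.of_forall wt_nonneg)]
    have h2 := hlw n R (fun _ => 1) measurable_const h
    simp only [one_mul, lintegral_const] at h2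
    have h3 := mu_univ_lt R h
    by_contra hcon
    rw [not_lt, top_le_iff] at hcon
    have h4 : ∫⁻ x in Cn R, ENNReal.ofReal (Real.exp (-⨆ a, x a)) = ∞ := hcon
    rw [h4, ENNReal.mul_top hcE] at h2
    rw [h2] at h3
    exact lt_irrefl _ h3
  -- the mass of a set
  have hmass : ∀ D : Set (Fin n → ℝ), MeasurableSet D →
      (mu R).real D = ((LX R).card : ℝ)⁻¹ * ∫ x in Cn R ∩ D, wt x := by
    intro D hD
    have h2 := hlw n R (D.indicator 1) (measurable_one.indicator hD) h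
    rw [lintegral_indicator_one hD] at h2
    have h3 : ∫⁻ x in Cn R, D.indicator 1 x * ENNReal.ofReal (Real.exp (-⨆ a, x a)) =
        ∫⁻ x in Cn R ∩ D, ENNReal.ofReal (wt x) := by
      rw [Set.inter_comm, ← Measure.restrict_restrict hD, ← lintegral_indicator hD]
      apply lintegral_congr
      intro x
      by_cases hx : x ∈ D
      · rw [Set.indicator_of_mem hx, Set.indicator_of_mem hx]
        simp [wt]
      · rw [Set.indicator_of_notMem hx, Set.indicator_of_notMem hx, zero_mul]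
    rw [h3] at h2
    rw [Measure.real, h2, ENNReal.toReal_mul, ENNReal.toReal_inv, ENNReal.toReal_natCast,
      integral_eq_lintegral_of_nonneg_ae (Eventually.of_forall wt_nonneg)
        wt_meas.aestronglyMeasurable]
  rw [hmass A hA.measurableSet, hmass B hB.measurableSet, hmass C hC.measurableSet]
  have t1 := fA_tendsto R hA.measurableSet hint
  have t2 := fA_tendsto R hB.measurableSet hint
  have t3 := fA_tendsto R hC.measurableSet hint
  have t4 := (t1.rpow_const (p := 1 - t) (Or.inr hl.le)).mul (t2.rpow_const (p := t) (Or.inr h0.le))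
  have h2 := le_of_tendsto_of_tendsto' t4 t3 fun T =>
    fA_pl R hA.measurableSet hB.measurableSet hC.measurableSet T h0 h1 hABC
  have hN : (0 : ℝ) < ((LX R).card : ℝ)⁻¹ := inv_pos.2 hcard
  have hP : 0 ≤ ∫ x in Cn R ∩ A, wt x := integral_nonneg fun x => wt_nonneg x
  have hQ : 0 ≤ ∫ x in Cn R ∩ B, wt x := integral_nonneg fun x => wt_nonneg x
  rw [Real.mul_rpow hN.le hP, Real.mul_rpow hN.le hQ]
  have h3 : (((LX R).card : ℝ)⁻¹) ^ (1 - t) * (((LX R).card : ℝ)⁻¹) ^ t = ((LX R).card : ℝ)⁻¹ := by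
    rw [← Real.rpow_add hN, sub_add_cancel, Real.rpow_one]
  calc (((LX R).card : ℝ)⁻¹) ^ (1 - t) * (∫ x in Cn R ∩ A, wt x) ^ (1 - t) *
      ((((LX R).card : ℝ)⁻¹) ^ t * (∫ x in Cn R ∩ B, wt x) ^ t) =
      ((((LX R).card : ℝ)⁻¹) ^ (1 - t) * (((LX R).card : ℝ)⁻¹) ^ t) *
        ((∫ x in Cn R ∩ A, wt x) ^ (1 - t) * (∫ x in Cn R ∩ B, wt x) ^ t) := by ring
    _ = ((LX R).card : ℝ)⁻¹ *
        ((∫ x in Cn R ∩ A, wt x) ^ (1 - t) * (∫ x in Cn R ∩ B, wt x) ^ t) := by rw [h3]
    _ ≤ ((LX R).card : ℝ)⁻¹ * ∫ x in Cn R ∩ C, wt x := mul_le_mul_of_nonneg_left h2 hN.le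

end

end Pool.Agent.Helper22.KS
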